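import Pool.Agent.Work.MP_1aab6d_co_h84.Rank

set_option autoImplicit false

/-- Let `r` be an ordinal-valued function on the vertices of the countable graph `G`, let `T u` be a
set of neighbours of `u` of finite degree lying in finite components (of the graph induced by the
vertices of finite degree), and let `A` be a set of vertices with the properties collected in
`UnfT.Ranked`.  If all but finitely many vertices of infinite degree are `UnfT.Served`, then `G` has
an unfriendly partition into two classes. -/
theorem Pool.Agent.Results.MP_1aab6d_co.RankedFamilies.result {V : Type*} [Countable V]
    (G : SimpleGraph V) (r : V → Ordinal.{0}) (T : V → Set V) (A : Set V)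
    (h : UnfT.Ranked G r T A)
    (hN : {u : V | UnfT.Inf G u ∧ ¬ UnfT.Served G r T A u}.Finite) :
    ∃ c : V → Bool, UnfT.Unfriendly G c :=
  UnfT.unfriendly_of_ranked G h hN
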